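import Pool.Agent.X190.UHFp.Emb

/-!
# Cancelling tensor factors in unital embeddings of UHF-type algebras

For cardinals `κ < κ'` with `κ'` infinite: if `⨂_{κ'} M_m` embeds unitally into `A ⊗ ⨂_κ M_m`, where
`A = ⨂_{i ∈ I} M_{n_i}`, then `⨂_{κ'} M_m` embeds unitally into `A`.
-/

universe u

open Cardinal Pool.Agent.Helper741.UHF Pool.Agent.X190.UHFp

namespace Pool.Agent.Results.MP_c44838_an.Cancellation

/-- First clause: the cancellation theorem. Second clause: for infinite `K`, `⨂_K M_m` embeds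
unitally into `⨂_{j ∈ J} M_{n_j}` if and only if every prime `p` that divides `m` divides at least
`#K` of the numbers `n_j`. -/
theorem result :
    (∀ (I K K' : Type u) (n : I → ℕ) (m : ℕ), (∀ i, 0 < n i) → 0 < m → #K < #K' → Infinite K' →
      ∀ (A B B' E : Type u) [CStarAlgebra A] [CStarAlgebra B] [CStarAlgebra B'] [CStarAlgebra E],
        IsMatrixTensor n A → IsMatrixTensor (fun _ : K => m) B →
        IsMatrixTensor (fun _ : K' => m) B' → IsCStarTensor A B E →
        EmbedsUnitally B' E → EmbedsUnitally B' A) ∧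
    (∀ (J K : Type u) (n : J → ℕ) (m : ℕ), (∀ j, 0 < n j) → 0 < m → Infinite K →
      ∀ (E C : Type u) [CStarAlgebra E] [CStarAlgebra C],
        IsMatrixTensor n E → IsMatrixTensor (fun _ : K => m) C →
        (EmbedsUnitally C E ↔ ∀ p : ℕ, p.Prime → p ∣ m → #K ≤ #{j | p ∣ n j})) := by
  refine ⟨?_, fun J K n m hn hm _ E C _ _ hE hC => embeds_iffN hn hm hE hC⟩
  intro I K K' n m hn hm hlt _ A B B' E _ _ _ _ hA hB hB' hE hemb
  refine embeds_of_mk_leN hn hm hA hB' fun p hp hpm => ?_
  have hS := isMatrixTensor_sum hA hB hE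
  have h1 := mk_le_of_embeds (n := Sum.elim n (fun _ : K => m)) (by
    rintro (i | k)
    · exact hn i
    · exact hm) hm hS hB' hemb hp hpm
  refine card_infinite hlt (aleph0_le_mk K') (h1.trans ?_)
  have h2 : #{j : I ⊕ K | p ∣ Sum.elim n (fun _ : K => m) j} ≤ #({i : I | p ∣ n i} ⊕ K) := by
    refine mk_le_of_injective (f := fun j => match j with
      | ⟨Sum.inl i, h⟩ => Sum.inl ⟨i, h⟩
      | ⟨Sum.inr k, _⟩ => Sum.inr k) ?_
    rintro ⟨(i | i), hi⟩ ⟨(j | j), hj⟩ hij
    · have h3 : i = j := congrArg Subtype.val (Sum.inl.inj hij)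
      subst h3; rfl
    · simp at hij
    · simp at hij
    · simp only [Sum.inr.injEq] at hij
      subst hij; rfl
  refine h2.trans ?_
  rw [Cardinal.mk_sum, Cardinal.lift_id, Cardinal.lift_id]

end Pool.Agent.Results.MP_c44838_an.Cancellation
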